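import Pool.Agent.Helper94.H2.Nat
import Pool.Agent.Helper82.H2.Diff
import Pool.Agent.Helper28.H2.Cfg
import Pool.Agent.Helper24.HN.Basic
import Pool.Agent.Helper57.XA.Yc

/-!
The affine coordinates of the point with the coordinate `w` of the line over `x` and their
derivative (type 2).
-/

set_option autoImplicit false

namespace Pool.Agent.Helper57.H2

open Pool.Agent.Helper28.HN (I Un En aff cp)
open Pool.Agent.Helper24.H2 Pool.Agent.Helper24.HN Filter Topology Finset
open Pool.Agent.Helper57.XA (cne tendsto_of_quot cont_aff cp_aff)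

/-! ## Linear algebra -/

section alg

variable {m : ℕ} {S : Type*} [CommRing S] (c : Ix m → S)

theorem bf_comb_l (r : Bi m) (a b : S) (x x' y : I m → S) :
    bf c r (fun i => a * x i + b * x' i) y = a * bf c r x y + b * bf c r x' y := by
  simp only [bf, mul_sum, ← sum_add_distrib]
  exact sum_congr rfl fun i _ => sum_congr rfl fun j _ => by ring

theorem bf_smul_r (r : Bi m) (a : S) (x y : I m → S) :
    bf c r x (fun i => a * y i) = a * bf c r x y := by
  simp only [bf, mul_sum]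
  exact sum_congr rfl fun i _ => sum_congr rfl fun j _ => by ring

theorem sf_comb_1 (a b : S) (x x' w y : I m → S) :
    sf c (fun i => a * x i + b * x' i) w y = a * sf c x w y + b * sf c x' w y := by
  simp only [sf, mul_sum, ← sum_add_distrib]
  exact sum_congr rfl fun i _ => sum_congr rfl fun j _ => sum_congr rfl fun k _ => by ring

theorem sf_comb_2 (a b : S) (w x x' y : I m → S) :
    sf c w (fun i => a * x i + b * x' i) y = a * sf c w x y + b * sf c w x' y := by
  simp only [sf, mul_sum, ← sum_add_distrib]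
  exact sum_congr rfl fun i _ => sum_congr rfl fun j _ => sum_congr rfl fun k _ => by ring

theorem sf_smul_r (a : S) (x x' y : I m → S) :
    sf c x x' (fun i => a * y i) = a * sf c x x' y := by
  simp only [sf, mul_sum]
  exact sum_congr rfl fun i _ => sum_congr rfl fun j _ => sum_congr rfl fun k _ => by ring

theorem sf_symm (x x' y : I m → S) : sf c x x' y = sf c x' x y := by
  simp only [sf]
  rw [sum_comm]
  exact sum_congr rfl fun i _ => sum_congr rfl fun j _ => sum_congr rfl fun k _ => by ring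

theorem tf_comb_1 (a b : S) (x x' y y' : I m → S) :
    tf c (fun i => a * x i + b * x' i) y y' = a * tf c x y y' + b * tf c x' y y' := by
  simp only [tf, mul_sum, ← sum_add_distrib]
  exact sum_congr rfl fun i _ => sum_congr rfl fun j _ => sum_congr rfl fun k _ => by ring

theorem tf_comb_3 (a b : S) (x w y y' : I m → S) :
    tf c x w (fun i => a * y i + b * y' i) = a * tf c x w y + b * tf c x w y' := by
  simp only [tf, mul_sum, ← sum_add_distrib]
  exact sum_congr rfl fun i _ => sum_congr rfl fun j _ => sum_congr rfl fun k _ => by ring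

/-- The difference quotient of `lx` in `x`. -/
def gx (r : Fin m) (u s y : I m → S) : S :=
  if h : r.val + 1 < m then bf c ⟨r, h⟩ u y else sf c u s y

theorem lx_sub (r : Fin m) (x x' y : I m → S) :
    lx c r x y - lx c r x' y = gx c r (fun i => 1 * x i + (-1) * x' i)
      (fun i => 1 * x i + 1 * x' i) y := by
  by_cases h : r.val + 1 < m
  · simp only [lx, gx, h, dite_true]
    rw [bf_comb_l]
    ring
  · simp only [lx, gx, h, dite_false]
    rw [sf_comb_1, sf_comb_2, sf_comb_2, sf_symm c x x' y]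
    ring

theorem gx_comb (r : Fin m) (a b : S) (u u' s y : I m → S) :
    gx c r (fun i => a * u i + b * u' i) s y = a * gx c r u s y + b * gx c r u' s y := by
  by_cases h : r.val + 1 < m
  · simp only [gx, h, dite_true]
    exact bf_comb_l c _ a b u u' y
  · simp only [gx, h, dite_false]
    exact sf_comb_1 c a b u u' s y

theorem gx_smul (r : Fin m) (a : S) (u s y : I m → S) :
    gx c r (fun i => a * u i) s y = a * gx c r u s y := by
  have := gx_comb c r a 0 u u s y
  simpa using this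

theorem dl_eq (r : Fin m) (x ξ y : I m → S) :
    dl c r x ξ y = gx c r ξ (fun i => 1 * x i + 1 * x i) y := by
  by_cases h : r.val + 1 < m
  · simp only [dl, gx, h, dite_true]
  · simp only [dl, gx, h, dite_false]
    rw [sf_comb_2, sf_symm c x ξ y]
    ring

theorem dl_comb (r : Fin m) (a b : S) (x ξ ξ' y : I m → S) :
    dl c r x (fun i => a * ξ i + b * ξ' i) y = a * dl c r x ξ y + b * dl c r x ξ' y := by
  rw [dl_eq, dl_eq, dl_eq, gx_comb]

theorem dl_smul_r (r : Fin m) (a : S) (x ξ y : I m → S) :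
    dl c r x ξ (fun i => a * y i) = a * dl c r x ξ y := by
  by_cases h : r.val + 1 < m
  · simp only [dl, h, dite_true]
    exact bf_smul_r c _ a ξ y
  · simp only [dl, h, dite_false]
    rw [sf_smul_r]
    ring

theorem lx_comb_r (r : Fin m) (a b : S) (x y y' : I m → S) :
    lx c r x (fun i => a * y i + b * y' i) = a * lx c r x y + b * lx c r x y' := by
  rw [Helper82.H2.lx_sum, Helper82.H2.lx_sum c r x y, Helper82.H2.lx_sum c r x y', mul_sum,
    mul_sum, ← sum_add_distrib]
  exact sum_congr rfl fun i _ => by ring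

theorem lx_smul_r (r : Fin m) (a : S) (x y : I m → S) :
    lx c r x (fun i => a * y i) = a * lx c r x y := by
  have := lx_comb_r c r a 0 x y y
  simpa using this

/-- The form `qh` is linear in the direction. -/
noncomputable def qhL (x : I m → S) (z : S) : (I m → S) →ₗ[S] S where
  toFun ξ := qh c x ξ z
  map_add' ξ ξ' := by
    have h1 : (fun i => 1 * ξ i + 1 * ξ' i) = ξ + ξ' := by
      funext i
      simp
    have h2 : (fun r => dl c r x (ξ + ξ') (yh c x z)) =
        (fun r => dl c r x ξ (yh c x z)) + fun r => dl c r x ξ' (yh c x z) := by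
      funext r
      rw [← h1, dl_comb]
      simp
    have h3 := tf_comb_1 c 1 1 ξ ξ' (yh c x z) (yh c x z)
    rw [h1] at h3
    have h4 : ∀ u v : Fin m → S, (Fin.cons 0 (Fin.cons 0 (- (u + v))) : I m → S) =
        fun i => 1 * (Fin.cons 0 (Fin.cons 0 (- u)) : I m → S) i +
          1 * (Fin.cons 0 (Fin.cons 0 (- v)) : I m → S) i := by
      intro u v
      funext i
      refine Fin.cases ?_ (fun i => Fin.cases ?_ (fun i => ?_) i) i
      · simp
      · simp
      · simp only [Fin.cons_succ, Pi.neg_apply, Pi.add_apply]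
        ring
    simp only [qh]
    rw [h3, h2, Matrix.mulVec_add, h4, tf_comb_3]
    ring
  map_smul' a ξ := by
    have h1 : (fun i => a * ξ i + 0 * ξ i) = a • ξ := by
      funext i
      simp
    have h2 : (fun r => dl c r x (a • ξ) (yh c x z)) =
        a • (fun r => dl c r x ξ (yh c x z)) := by
      funext r
      rw [← h1, dl_comb]
      simp
    have h3 := tf_comb_1 c a 0 ξ ξ (yh c x z) (yh c x z)
    rw [h1] at h3
    have h4 : ∀ u : Fin m → S, (Fin.cons 0 (Fin.cons 0 (- (a • u))) : I m → S) =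
        fun i => a * (Fin.cons 0 (Fin.cons 0 (- u)) : I m → S) i +
          0 * (Fin.cons 0 (Fin.cons 0 (- u)) : I m → S) i := by
      intro u
      funext i
      refine Fin.cases ?_ (fun i => Fin.cases ?_ (fun i => ?_) i) i
      · simp
      · simp
      · simp only [Fin.cons_succ, Pi.neg_apply, Pi.smul_apply, smul_eq_mul]
        ring
    simp only [qh]
    rw [h3, h2, Matrix.mulVec_smul, h4, tf_comb_3]
    simp only [RingHom.id_apply, smul_eq_mul]
    ring

theorem qhL_apply (x ξ : I m → S) (z : S) : qhL c x z ξ = qh c x ξ z := rfl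

theorem ly_comb (r : Fin m) (a b : S) (x x' y : I m → S) :
    ly c r (fun i => a * x i + b * x' i) y = a * ly c r x y + b * ly c r x' y := by
  by_cases h : r.val + 1 < m
  · simp only [ly, h, dite_true]
    exact bf_comb_l c _ a b x x' y
  · simp only [ly, h, dite_false]
    exact tf_comb_1 c a b x x' y y

/-- `ly` as a linear map. -/
def lyL (r : Fin m) (y : I m → S) : (I m → S) →ₗ[S] S where
  toFun x := ly c r x y
  map_add' x x' := by
    have h1 : (fun i => 1 * x i + 1 * x' i) = x + x' := by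
      funext i
      simp
    rw [← h1, ly_comb]
    simp
  map_smul' a x := by
    have h1 : (fun i => a * x i + 0 * x i) = a • x := by
      funext i
      simp
    rw [← h1, ly_comb]
    simp

theorem ly_sum (r : Fin m) (x y : I m → S) :
    ly c r x y = ∑ i, ly c r (Pi.single i 1) y * x i := by
  have h := LinearMap.pi_apply_eq_sum_univ (lyL c r y) x
  change ly c r x y = _ at h
  rw [h]
  refine sum_congr rfl fun i _ => ?_
  have e : (fun j => if i = j then (1 : S) else 0) = Pi.single i 1 := by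
    funext j
    by_cases hij : i = j
    · subst hij; simp
    · rw [if_neg hij, Pi.single_eq_of_ne (Ne.symm hij)]
  rw [e, smul_eq_mul, mul_comm]
  rfl

theorem ly_split (r : Fin m) (x y : I m → S) :
    ly c r x y = ly c r (Pi.single 0 1) y * x 0 + ((Nx c y).mulVec (fun b => x b.castSucc.succ) r +
      ly c r (Pi.single (Fin.last (m + 1)) 1) y * x (Fin.last (m + 1))) := by
  rw [ly_sum, Fin.sum_univ_succ, Fin.sum_univ_castSucc, Fin.succ_last]
  rfl

theorem det_x (y ξ : I m → S) (h : ∀ r, ly c r ξ y = 0) (h0 : ξ 0 = 0) (i : I m) :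
    (Nx c y).det * ξ i = ξ (Fin.last (m + 1)) * xh c y i := by
  have h1 : (Nx c y).mulVec (fun b => ξ b.castSucc.succ) =
      - (ξ (Fin.last (m + 1)) • fun r => ly c r (Pi.single (Fin.last (m + 1)) 1) y) := by
    funext r
    have := h r
    rw [ly_split, h0] at this
    simp only [Pi.neg_apply, Pi.smul_apply, smul_eq_mul]
    linear_combination this
  have h2 := congrArg (Nx c y).adjugate.mulVec h1
  rw [Helper82.H2.adj_mulVec, Matrix.mulVec_neg, Matrix.mulVec_smul] at h2
  refine Fin.cases ?_ (fun i => ?_) i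
  · rw [h0]
    change _ = _ * (Fin.cons 0 (vh c y) : I m → S) 0
    rw [Fin.cons_zero]
    ring
  refine Fin.lastCases ?_ (fun i => ?_) i
  · rw [Fin.succ_last]
    have h3 : xh c y (Fin.last (m + 1)) = (Nx c y).det := by
      rw [← Fin.succ_last]
      unfold xh vh
      rw [Fin.cons_succ, Fin.snoc_last]
    rw [h3]
    ring
  · have h3 := congrFun h2 i
    have h4 : xh c y i.castSucc.succ =
        - ((Nx c y).adjugate.mulVec fun r => ly c r (Pi.single (Fin.last (m + 1)) 1) y) i := by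
      unfold xh vh
      rw [Fin.cons_succ, Fin.snoc_castSucc, Pi.neg_apply]
    simp only [Pi.neg_apply, Pi.smul_apply, smul_eq_mul] at h3
    rw [h4]
    linear_combination h3

end alg

variable {p : ℕ} [Fact p.Prime] {m : ℕ}

/-! ## The point of the line over `x` -/

/-- The affine coordinates of the point with the coordinate `w` of the line over `x`. -/
noncomputable def Yc (c : Ix m → ℤ_[p]) (w : ℤ_[p]) (x : V p (m + 1)) : Fin m → ℚ_[p] :=
  fun s => ((yh c (aff x) w s.succ.succ : ℤ_[p]) : ℚ_[p]) / (((Mx c (aff x)).det : ℤ_[p]) : ℚ_[p])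

/-- The same point, all coordinates. -/
noncomputable def yv (c : Ix m → ℤ_[p]) (w : ℤ_[p]) (x : V p (m + 1)) : I m → ℚ_[p] :=
  Fin.cons 1 (Fin.cons (w : ℚ_[p]) (Yc c w x))

theorem cp_lx (c : Ix m → ℤ_[p]) (r : Fin m) (x y : I m → ℤ_[p]) :
    lx (cp c) r (cp x) (cp y) = ((lx c r x y : ℤ_[p]) : ℚ_[p]) :=
  (Helper94.H2.map_lx (PadicInt.Coe.ringHom (p := p)) c r x y).symm

theorem det_cp_Mx (c : Ix m → ℤ_[p]) (x : I m → ℤ_[p]) :
    (Mx (cp c) (cp x)).det = (((Mx c x).det : ℤ_[p]) : ℚ_[p]) := by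
  have h := RingHom.map_det (PadicInt.Coe.ringHom (p := p)) (Mx c x)
  rw [Helper94.H2.map_Mx] at h
  exact h.symm

theorem det_cp_Nx (c : Ix m → ℤ_[p]) (y : I m → ℤ_[p]) :
    (Nx (cp c) (cp y)).det = (((Nx c y).det : ℤ_[p]) : ℚ_[p]) := by
  have h := RingHom.map_det (PadicInt.Coe.ringHom (p := p)) (Nx c y)
  rw [Helper94.H2.map_Nx] at h
  exact h.symm

theorem cp_yh (c : Ix m → ℤ_[p]) (x : I m → ℤ_[p]) (w : ℤ_[p]) :
    cp (yh c x w) = yh (cp c) (cp x) (w : ℚ_[p]) :=
  Helper94.H2.map_yh (PadicInt.Coe.ringHom (p := p)) c x w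

theorem yh_yv (c : Ix m → ℤ_[p]) (w : ℤ_[p]) (x : V p (m + 1)) (hD : (Mx c (aff x)).det ≠ 0) :
    cp (yh c (aff x) w) = fun i => (((Mx c (aff x)).det : ℤ_[p]) : ℚ_[p]) * yv c w x i := by
  have hD' : (((Mx c (aff x)).det : ℤ_[p]) : ℚ_[p]) ≠ 0 := cne hD
  funext i
  refine Fin.cases ?_ (fun i => ?_) i
  · simp [cp, yv, Helper82.H2.yh_zero]
  refine Fin.cases ?_ (fun i => ?_) i
  · have h : yh c (aff x) w (Fin.succ (0 : Fin (m + 1))) = w * (Mx c (aff x)).det :=
      Helper82.H2.yh_one c (aff x) w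
    simp only [cp, yv, h, Fin.cons_succ, Fin.cons_zero]
    push_cast
    ring
  · simp only [cp, yv, Fin.cons_succ, Yc]
    field_simp

theorem lx_yv (c : Ix m → ℤ_[p]) (w : ℤ_[p]) (x : V p (m + 1)) (hD : (Mx c (aff x)).det ≠ 0)
    (r : Fin m) : lx (cp c) r (cp (aff x)) (yv c w x) = 0 := by
  have hD' : (((Mx c (aff x)).det : ℤ_[p]) : ℚ_[p]) ≠ 0 := cne hD
  have h := cp_lx c r (aff x) (yh c (aff x) w)
  rw [Helper82.H2.lx_yh, yh_yv c w x hD, lx_smul_r] at h
  have h2 : (((0 : ℤ_[p])) : ℚ_[p]) = 0 := by simp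
  rw [h2] at h
  exact (mul_eq_zero.1 h).resolve_left hD'

/-- The equation of the difference quotient. -/
theorem Mx_diff (c : Ix m → ℤ_[p]) (w : ℤ_[p]) (x x1 : V p (m + 1))
    (hD : (Mx c (aff x)).det ≠ 0) (hD1 : (Mx c (aff x1)).det ≠ 0) (a : ℚ_[p]) :
    (Mx (cp c) (cp (aff x1))).mulVec (a • (Yc c w x - Yc c w x1)) =
      - fun r => gx (cp c) r (Fin.cons 0 (a • (cst x - cst x1)))
        (fun i => 1 * cp (aff x) i + 1 * cp (aff x1) i) (yv c w x) := by
  funext r
  have h0 := lx_yv c w x hD r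
  have h1 := lx_yv c w x1 hD1 r
  have h2 := lx_sub (cp c) r (cp (aff x)) (cp (aff x1)) (yv c w x)
  have e : (fun i => 1 * cp (aff x) i + -1 * cp (aff x1) i) =
      (Fin.cons 0 (cst x - cst x1) : I m → ℚ_[p]) := by
    funext i
    rw [cp_aff, cp_aff]
    refine Fin.cases ?_ (fun i => ?_) i
    · simp
    · simp only [Fin.cons_succ, Pi.sub_apply]
      ring
  rw [e, h0] at h2
  have h3 : lx (cp c) r (cp (aff x1)) (fun i => a * yv c w x i + (-a) * yv c w x1 i) =
      (Mx (cp c) (cp (aff x1))).mulVec (a • (Yc c w x - Yc c w x1)) r := by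
    rw [Helper82.H2.lx_split]
    have e0 : a * yv c w x 0 + (-a) * yv c w x1 0 = 0 := by
      simp [yv]
    have e1 : a * yv c w x 1 + (-a) * yv c w x1 1 = 0 := by
      have e2 : ∀ x : V p (m + 1), yv c w x 1 = w := fun x => rfl
      rw [e2, e2]
      ring
    simp only [e0, e1]
    have e2 : (fun b : Fin m => a * yv c w x b.succ.succ + (-a) * yv c w x1 b.succ.succ) =
        a • (Yc c w x - Yc c w x1) := by
      funext b
      simp only [yv, Fin.cons_succ, Pi.smul_apply, Pi.sub_apply, smul_eq_mul]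
      ring
    rw [e2]
    ring
  have h4 : gx (cp c) r (Fin.cons 0 (a • (cst x - cst x1)))
      (fun i => 1 * cp (aff x) i + 1 * cp (aff x1) i) (yv c w x) =
      a * gx (cp c) r (Fin.cons 0 (cst x - cst x1))
        (fun i => 1 * cp (aff x) i + 1 * cp (aff x1) i) (yv c w x) := by
    rw [← gx_smul]
    congr 1
    funext i
    refine Fin.cases ?_ (fun i => ?_) i
    · simp
    · simp
  rw [← h3, lx_comb_r, h1, Pi.neg_apply, h4]
  linear_combination (-a) * h2

/-- The derivative of `Yc`. -/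
noncomputable def La (c : Ix m → ℤ_[p]) (x1 : V p (m + 1)) (w : ℤ_[p]) :
    (Fin (m + 1) → ℚ_[p]) →ₗ[ℚ_[p]] (Fin m → ℚ_[p]) where
  toFun X := - ((Mx (cp c) (cp (aff x1)))⁻¹.mulVec
    fun r => dl (cp c) r (cp (aff x1)) (Fin.cons 0 X) (yv c w x1))
  map_add' X Y := by
    have h : (fun r => dl (cp c) r (cp (aff x1)) (Fin.cons 0 (X + Y)) (yv c w x1)) =
        (fun r => dl (cp c) r (cp (aff x1)) (Fin.cons 0 X) (yv c w x1)) +
          fun r => dl (cp c) r (cp (aff x1)) (Fin.cons 0 Y) (yv c w x1) := by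
      funext r
      have := dl_comb (cp c) r 1 1 (cp (aff x1)) (Fin.cons 0 X) (Fin.cons 0 Y) (yv c w x1)
      have e : (fun i => 1 * (Fin.cons 0 X : I m → ℚ_[p]) i +
          1 * (Fin.cons 0 Y : I m → ℚ_[p]) i) = Fin.cons 0 (X + Y) := by
        funext i
        refine Fin.cases ?_ (fun i => ?_) i
        · simp
        · simp
      rw [e] at this
      rw [this, Pi.add_apply]
      ring
    rw [h, Matrix.mulVec_add, neg_add]
  map_smul' a X := by
    have h : (fun r => dl (cp c) r (cp (aff x1)) (Fin.cons 0 (a • X)) (yv c w x1)) =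
        a • (fun r => dl (cp c) r (cp (aff x1)) (Fin.cons 0 X) (yv c w x1)) := by
      funext r
      have := dl_comb (cp c) r a 0 (cp (aff x1)) (Fin.cons 0 X) (Fin.cons 0 X) (yv c w x1)
      have e : (fun i => a * (Fin.cons 0 X : I m → ℚ_[p]) i +
          0 * (Fin.cons 0 X : I m → ℚ_[p]) i) = Fin.cons 0 (a • X) := by
        funext i
        refine Fin.cases ?_ (fun i => ?_) i
        · simp
        · simp
      rw [e] at this
      rw [this, Pi.smul_apply, smul_eq_mul]
      ring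
    rw [h, Matrix.mulVec_smul, RingHom.id_apply, smul_neg]

theorem La_apply (c : Ix m → ℤ_[p]) (x1 : V p (m + 1)) (w : ℤ_[p]) (X : Fin (m + 1) → ℚ_[p]) :
    La c x1 w X = - ((Mx (cp c) (cp (aff x1)))⁻¹.mulVec
      fun r => dl (cp c) r (cp (aff x1)) (Fin.cons 0 X) (yv c w x1)) := rfl

theorem diff_eq (c : Ix m → ℤ_[p]) (w : ℤ_[p]) (x x1 : V p (m + 1))
    (hD : (Mx c (aff x)).det ≠ 0) (hD1 : (Mx c (aff x1)).det ≠ 0) (a : ℚ_[p]) :
    a • (Yc c w x - Yc c w x1) = - ((Mx (cp c) (cp (aff x1)))⁻¹.mulVec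
      fun r => gx (cp c) r (Fin.cons 0 (a • (cst x - cst x1)))
        (fun i => 1 * cp (aff x) i + 1 * cp (aff x1) i) (yv c w x)) := by
  have h := Mx_diff c w x x1 hD hD1 a
  have hu : IsUnit (Mx (cp c) (cp (aff x1))).det := by
    rw [det_cp_Mx, isUnit_iff_ne_zero]
    exact cne hD1
  have h2 := congrArg (Mx (cp c) (cp (aff x1)))⁻¹.mulVec h
  rw [Matrix.mulVec_mulVec, Matrix.nonsing_inv_mul _ hu, Matrix.one_mulVec,
    Matrix.mulVec_neg] at h2
  exact h2

theorem cont_gx {S : Type*} [CommRing S] [TopologicalSpace S] [IsTopologicalRing S]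
    (c : Ix m → S) (r : Fin m) :
    Continuous fun q : (I m → S) × (I m → S) × (I m → S) => gx c r q.1 q.2.1 q.2.2 := by
  by_cases h : r.val + 1 < m
  · simp only [gx, h, dite_true]
    unfold bf
    fun_prop
  · simp only [gx, h, dite_false]
    unfold sf
    fun_prop

theorem cont_lx {S : Type*} [CommRing S] [TopologicalSpace S] [IsTopologicalRing S]
    (c : Ix m → S) (r : Fin m) (y : I m → S) : Continuous fun x : I m → S => lx c r x y := by
  by_cases h : r.val + 1 < m
  · simp only [lx, h, dite_true]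
    unfold bf
    fun_prop
  · simp only [lx, h, dite_false]
    unfold sf
    fun_prop

theorem tendsto_gx {S : Type*} [CommRing S] [TopologicalSpace S] [IsTopologicalRing S]
    (c : Ix m → S) (r : Fin m) {u s v : ℕ → I m → S} {u0 s0 v0 : I m → S}
    (hu : Tendsto u atTop (𝓝 u0)) (hs : Tendsto s atTop (𝓝 s0)) (hv : Tendsto v atTop (𝓝 v0)) :
    Tendsto (fun N => gx c r (u N) (s N) (v N)) atTop (𝓝 (gx c r u0 s0 v0)) := by
  have h := ((cont_gx c r).tendsto (u0, s0, v0)).comp (hu.prodMk_nhds (hs.prodMk_nhds hv))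
  exact h

theorem cont_Mx {S : Type*} [CommRing S] [TopologicalSpace S] [IsTopologicalRing S]
    (c : Ix m → S) : Continuous fun x : I m → S => Mx c x := by
  refine continuous_matrix fun r b => ?_
  exact cont_lx c r _

theorem cont_Yc (c : Ix m → ℤ_[p]) (w : ℤ_[p]) (x1 : V p (m + 1))
    (hD1 : (Mx c (aff x1)).det ≠ 0) : ContinuousAt (Yc c w) x1 := by
  have hco : Continuous (fun a : ℤ_[p] => (a : ℚ_[p])) := continuous_subtype_val
  have hM : Continuous fun x : V p (m + 1) => Mx c (aff x) := (cont_Mx c).comp cont_aff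
  have hdet : Continuous fun x : V p (m + 1) => (Mx c (aff x)).det := hM.matrix_det
  refine continuousAt_pi.2 fun s => ?_
  refine ContinuousAt.div ?_ (hco.comp hdet).continuousAt (cne hD1)
  refine (hco.comp ?_).continuousAt
  have hv : ∀ j : I m, Continuous fun x : V p (m + 1) =>
      ((Mx c (aff x)).adjugate.mulVec fun r => lx c r (aff x) (Pi.single j 1)) s := by
    intro j
    have h2 : Continuous fun x : V p (m + 1) =>
        (Mx c (aff x)).adjugate.mulVec fun r => lx c r (aff x) (Pi.single j 1) := by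
      refine Continuous.matrix_mulVec hM.matrix_adjugate ?_
      refine continuous_pi fun r => ?_
      exact (cont_lx c r _).comp cont_aff
    exact (continuous_apply s).comp h2
  have h3 : (fun x : V p (m + 1) => yh c (aff x) w s.succ.succ) = fun x =>
      - ((Mx c (aff x)).adjugate.mulVec fun r => lx c r (aff x) (Pi.single 0 1)) s +
        w * - ((Mx c (aff x)).adjugate.mulVec fun r => lx c r (aff x) (Pi.single 1 1)) s := rfl
  rw [h3]
  exact (hv 0).neg.add (continuous_const.mul (hv 1).neg)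

theorem tendsto_cp_aff {X : ℕ → V p (m + 1)} {x1 : V p (m + 1)} (hX : Tendsto X atTop (𝓝 x1)) :
    Tendsto (fun N => (cp (aff (X N)) : I m → ℚ_[p])) atTop (𝓝 (cp (aff x1))) := by
  have hco : Continuous (fun v : I m → ℤ_[p] => (cp v : I m → ℚ_[p])) :=
    continuous_pi fun i => continuous_subtype_val.comp (continuous_apply i)
  exact ((hco.comp cont_aff).tendsto x1).comp hX

/-- The derivative of `Yc` along a sequence. -/
theorem hder (c : Ix m → ℤ_[p]) (x1 : V p (m + 1)) (w : ℤ_[p]) (hD : IsUnit (Mx c (aff x1)).det)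
    (al : ℕ → ℚ_[p]) (hal : ∀ N, al N ≠ 0) (hal0 : Tendsto al atTop (𝓝 0)) (X : ℕ → V p (m + 1))
    (Y : Fin (m + 1) → ℚ_[p])
    (h : Tendsto (fun N => (al N)⁻¹ • (cst (X N) - cst x1)) atTop (𝓝 Y)) :
    Tendsto (fun N => (al N)⁻¹ • (Yc c w (X N) - Yc c w x1)) atTop (𝓝 (La c x1 w Y)) := by
  have hD1 : (Mx c (aff x1)).det ≠ 0 := hD.ne_zero
  have hX := tendsto_of_quot x1 al hal hal0 X Y h
  have hY := (cont_Yc c w x1 hD1).tendsto.comp hX
  have hdet : Continuous fun x : V p (m + 1) => (Mx c (aff x)).det :=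
    ((cont_Mx c).comp cont_aff).matrix_det
  have hev : ∀ᶠ N in atTop, (Mx c (aff (X N))).det ≠ 0 :=
    (hdet.continuousAt.tendsto.comp hX).eventually_ne hD1
  have hyv : Tendsto (fun N => yv c w (X N)) atTop (𝓝 (yv c w x1)) := by
    refine tendsto_pi_nhds.2 fun i => ?_
    refine Fin.cases ?_ (fun i => ?_) i
    · exact tendsto_const_nhds
    refine Fin.cases ?_ (fun i => ?_) i
    · exact tendsto_const_nhds
    · exact (tendsto_pi_nhds.1 hY i)
  have hcons : Tendsto (fun N => (Fin.cons 0 ((al N)⁻¹ • (cst (X N) - cst x1)) : I m → ℚ_[p]))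
      atTop (𝓝 (Fin.cons 0 Y)) := by
    refine tendsto_pi_nhds.2 fun i => ?_
    refine Fin.cases ?_ (fun i => ?_) i
    · exact tendsto_const_nhds
    · exact (tendsto_pi_nhds.1 h i)
  have hs : Tendsto (fun N => fun i => 1 * (cp (aff (X N)) : I m → ℚ_[p]) i + 1 * cp (aff x1) i)
      atTop (𝓝 fun i => 1 * (cp (aff x1) : I m → ℚ_[p]) i + 1 * cp (aff x1) i) := by
    refine tendsto_pi_nhds.2 fun i => ?_
    exact ((tendsto_pi_nhds.1 (tendsto_cp_aff hX) i).const_mul 1).add tendsto_const_nhds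
  have hlf : Tendsto (fun N => fun r => gx (cp c) r
      (Fin.cons 0 ((al N)⁻¹ • (cst (X N) - cst x1)))
      (fun i => 1 * cp (aff (X N)) i + 1 * cp (aff x1) i) (yv c w (X N))) atTop
      (𝓝 fun r => dl (cp c) r (cp (aff x1)) (Fin.cons 0 Y) (yv c w x1)) := by
    refine tendsto_pi_nhds.2 fun r => ?_
    rw [dl_eq]
    exact tendsto_gx (cp c) r hcons hs hyv
  have hmv : Continuous fun v : Fin m → ℚ_[p] =>
      - ((Mx (cp c) (cp (aff x1)))⁻¹.mulVec v) :=
    (Continuous.matrix_mulVec continuous_const continuous_id).neg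
  have hfin := (hmv.tendsto _).comp hlf
  refine Tendsto.congr' ?_ hfin
  filter_upwards [hev] with N hN
  rw [diff_eq c w (X N) x1 hN hD1 (al N)⁻¹]
  rfl

theorem yh_eq (c : Ix m → ℤ_[p]) (x : V p (m + 1)) (w : ℤ_[p]) (hD : (Mx c (aff x)).det ≠ 0) :
    cp (yh c (aff x) w) = fun a => (((Mx c (aff x)).det : ℤ_[p]) : ℚ_[p]) *
      aff (Fin.cons (w : ℚ_[p]) (Yc c w x) : Fin (m + 1) → ℚ_[p]) a :=
  yh_yv c w x hD

/-- The derivative is onto on the kernel of the derivative of the form. -/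
theorem hsurj (hm : 1 ≤ m) (c : Ix m → ℤ_[p]) (x1 : V p (m + 1)) (w : ℤ_[p])
    (hD : IsUnit (Mx c (aff x1)).det) (hN : (Nx c (yh c (aff x1) w)).det ≠ 0)
    (hpsi : psh c (aff x1) w ≠ 0)
    (f : (Fin (m + 1) → ℚ_[p]) →ₗ[ℚ_[p]] ℚ_[p])
    (hf : ∀ X, f X = qh (cp c) (cp (aff x1)) (Fin.cons 0 X) (w : ℚ_[p])) (η : Fin m → ℚ_[p]) :
    ∃ X, f X = 0 ∧ La c x1 w X = η := by
  have hD1 : (Mx c (aff x1)).det ≠ 0 := hD.ne_zero
  have hD' : (((Mx c (aff x1)).det : ℤ_[p]) : ℚ_[p]) ≠ 0 := cne hD1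
  set D : ℚ_[p] := (((Mx c (aff x1)).det : ℤ_[p]) : ℚ_[p]) with hDdef
  set y := yv c w x1 with hy
  set yy := yh (cp c) (cp (aff x1)) (w : ℚ_[p]) with hyy
  have hyD : yy = fun i => D * y i := by
    rw [hyy, ← cp_yh, yh_yv c w x1 hD1]
  have huM : IsUnit (Mx (cp c) (cp (aff x1))).det := by
    rw [det_cp_Mx, isUnit_iff_ne_zero]
    exact hD'
  have hNy : (Nx (cp c) yy).det ≠ 0 := by
    rw [hyy, ← cp_yh, det_cp_Nx]
    exact cne hN
  have hps : psh (cp c) (cp (aff x1)) (w : ℚ_[p]) ≠ 0 := by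
    have h := Helper94.H2.map_psh (PadicInt.Coe.ringHom (p := p)) c (aff x1) w
    change ((psh c (aff x1) w : ℤ_[p]) : ℚ_[p]) = psh (cp c) (cp (aff x1)) (w : ℚ_[p]) at h
    rw [← h]
    exact cne hpsi
  -- injectivity
  have hinj : ∀ X, f X = 0 → La c x1 w X = 0 → X = 0 := by
    intro X hX0 hX1
    set ξ : I m → ℚ_[p] := Fin.cons 0 X with hξ
    have h1 : (fun r => dl (cp c) r (cp (aff x1)) ξ y) = 0 := by
      rw [La_apply, neg_eq_zero] at hX1
      have h2 := congrArg (Mx (cp c) (cp (aff x1))).mulVec hX1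
      rw [Matrix.mulVec_mulVec, Matrix.mul_nonsing_inv _ huM, Matrix.one_mulVec,
        Matrix.mulVec_zero] at h2
      exact h2
    have h1y : ∀ r, dl (cp c) r (cp (aff x1)) ξ yy = 0 := by
      intro r
      rw [hyD, dl_smul_r, congrFun h1 r]
      simp
    have h2 : tf (cp c) ξ yy yy = 0 := by
      rw [hf] at hX0
      simp only [qh] at hX0
      rw [← hyy] at hX0
      have e1 : (fun r => dl (cp c) r (cp (aff x1)) ξ yy) = 0 := funext h1y
      have e2 : (Fin.cons 0 (Fin.cons 0 (- (0 : Fin m → ℚ_[p]))) : I m → ℚ_[p]) =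
          fun i => 0 * yy i + 0 * yy i := by
        funext i
        refine Fin.cases ?_ (fun i => Fin.cases ?_ (fun i => ?_) i) i
        · simp
        · simp
        · simp
      rw [e1, Matrix.mulVec_zero, e2, tf_comb_3, det_cp_Mx, ← hDdef] at hX0
      have h3 : D * tf (cp c) ξ yy yy = 0 := by linear_combination hX0
      exact (mul_eq_zero.1 h3).resolve_left hD'
    have h3 : ∀ r, ly (cp c) r ξ yy = 0 := by
      intro r
      by_cases h : r.val + 1 < m
      · have h4 := h1y r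
        simp only [dl, h, dite_true] at h4
        simp only [ly, h, dite_true]
        exact h4
      · simp only [ly, h, dite_false]
        exact h2
    have h4 := det_x (cp c) yy ξ h3 (by rw [hξ, Fin.cons_zero])
    -- the last row
    have h5 : sf (cp c) (cp (aff x1)) ξ yy = 0 := by
      have h6 := h1y ⟨m - 1, by omega⟩
      have h7 : ¬ (m - 1 + 1 < m) := by omega
      simp only [dl, h7, dite_false] at h6
      exact (mul_eq_zero.1 h6).resolve_left two_ne_zero
    have h6 : ξ (Fin.last (m + 1)) = 0 := by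
      have h7 : sf (cp c) (cp (aff x1)) (fun i => (Nx (cp c) yy).det * ξ i + 0 * ξ i) yy =
          sf (cp c) (cp (aff x1))
            (fun i => ξ (Fin.last (m + 1)) * xh (cp c) yy i + 0 * xh (cp c) yy i) yy := by
        congr 1
        funext i
        rw [h4 i]
        ring
      rw [sf_comb_2, sf_comb_2, h5] at h7
      have h8 : ξ (Fin.last (m + 1)) * psh (cp c) (cp (aff x1)) (w : ℚ_[p]) = 0 := by
        simp only [psh]
        rw [← hyy]
        linear_combination -h7
      exact (mul_eq_zero.1 h8).resolve_right hps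
    funext i
    have h7 := h4 i.succ
    rw [h6, zero_mul] at h7
    have h8 := (mul_eq_zero.1 h7).resolve_left hNy
    rw [hξ, Fin.cons_succ] at h8
    exact h8
  -- dimension count
  let T : (Fin (m + 1) → ℚ_[p]) →ₗ[ℚ_[p]] (ℚ_[p] × (Fin m → ℚ_[p])) := f.prod (La c x1 w)
  have hT : Function.Injective T := by
    rw [← LinearMap.ker_eq_bot, LinearMap.ker_eq_bot']
    intro X hX
    have h1 : f X = 0 := congrArg Prod.fst hX
    have h2 : La c x1 w X = 0 := congrArg Prod.snd hX
    exact hinj X h1 h2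
  have hdim : Module.finrank ℚ_[p] (Fin (m + 1) → ℚ_[p]) =
      Module.finrank ℚ_[p] (ℚ_[p] × (Fin m → ℚ_[p])) := by
    rw [Module.finrank_prod, Module.finrank_self, Module.finrank_fin_fun, Module.finrank_fin_fun]
    ring
  obtain ⟨X, hX⟩ := (LinearMap.injective_iff_surjective_of_finrank_eq_finrank hdim).1 hT (0, η)
  exact ⟨X, congrArg Prod.fst hX, congrArg Prod.snd hX⟩

/-- The linear form at a point where the quadratic equation vanishes identically. -/
theorem phi_eq (c : Ix m → ℤ_[p]) (L : Loc p (m + 1)) {J : Type} (x1 : V p (m + 1))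
    (ζ : J → ℤ_[p]) (w : ℤ_[p]) (hF : Fh c (aff x1) w = 0)
    (hd : ∀ v, ∃ d, (∀ z, L.dF x1 v z = qh c (aff x1) (Fin.cons 0 v) z + d * Fh c (aff x1) z) ∧
      L.dA x1 v = qa c (aff x1) (Fin.cons 0 v) + d * Ah c (aff x1))
    (X : Fin (m + 1) → ℚ_[p]) :
    (lin L x1 ζ).phi (w : ℚ_[p]) X = qh (cp c) (cp (aff x1)) (Fin.cons 0 X) (w : ℚ_[p]) := by
  have hX : X = ∑ i, X i • cst (Pi.single i (1 : ℤ_[p]) : V p (m + 1)) := by
    funext j
    rw [Finset.sum_apply, Finset.sum_eq_single j]
    · simp [cst]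
    · intro b _ hb
      simp [cst, Pi.single_eq_of_ne (Ne.symm hb)]
    · intro h
      exact absurd (mem_univ _) h
  have e1 : (lin L x1 ζ).phi (w : ℚ_[p]) X = ∑ i, X i *
      (lin L x1 ζ).phi (w : ℚ_[p]) (cst (Pi.single i (1 : ℤ_[p]) : V p (m + 1))) := by
    simp only [Lin.phi]
    refine sum_congr rfl fun i _ => ?_
    rw [sum_eq_single i]
    · simp [cst]
      ring
    · intro b _ hb
      simp [cst, Pi.single_eq_of_ne hb]
    · intro h
      exact absurd (mem_univ _) h
  have e2 : qh (cp c) (cp (aff x1)) (Fin.cons 0 X) (w : ℚ_[p]) = ∑ i, X i *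
      qh (cp c) (cp (aff x1)) (Fin.cons 0 (cst (Pi.single i (1 : ℤ_[p]) : V p (m + 1))))
        (w : ℚ_[p]) := by
    have h1 : (Fin.cons 0 X : I m → ℚ_[p]) =
        ∑ i, X i • (Fin.cons 0 (cst (Pi.single i (1 : ℤ_[p]) : V p (m + 1))) : I m → ℚ_[p]) := by
      funext j
      rw [Finset.sum_apply]
      refine Fin.cases ?_ (fun j => ?_) j
      · simp
      · simp only [Fin.cons_succ, Pi.smul_apply]
        have := congrFun hX j
        rw [Finset.sum_apply] at this
        simpa using this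
    rw [← qhL_apply, h1, map_sum]
    refine sum_congr rfl fun i _ => ?_
    rw [map_smul, smul_eq_mul, qhL_apply]
  rw [e1, e2]
  refine sum_congr rfl fun i _ => ?_
  congr 1
  rw [lin_phi]
  obtain ⟨d, h1, -⟩ := hd (Pi.single i 1)
  rw [h1 w, hF, mul_zero, add_zero]
  have h2 := Helper94.H2.map_qh (PadicInt.Coe.ringHom (p := p)) c (aff x1)
    (Fin.cons 0 (Pi.single i (1 : ℤ_[p]) : V p (m + 1))) w
  have h3 : (fun j => PadicInt.Coe.ringHom (p := p)
      ((Fin.cons 0 (Pi.single i (1 : ℤ_[p]) : V p (m + 1)) : I m → ℤ_[p]) j)) =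
      (Fin.cons 0 (cst (Pi.single i (1 : ℤ_[p]) : V p (m + 1))) : I m → ℚ_[p]) := by
    funext j
    refine Fin.cases ?_ (fun j => ?_) j
    · simp
    · rfl
  rw [h3] at h2
  exact h2

theorem Fh_lin {S : Type*} [CommRing S] {m : ℕ} (c : Ix m → S) (x : I m → S) (z : S)
    (hA : Ah c x = 0) (hB : 2 * Bh c x = 0) (hC : Ch c x = 0) : Fh c x z = 0 := by
  have h1 : yh c x z = fun i => 1 * Y0 c x i + z * Y1 c x i := by
    funext i
    simp [yh]
  have h2 : ∀ u, tf c x (fun i => 1 * Y0 c x i + z * Y1 c x i) u =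
      1 * tf c x (Y0 c x) u + z * tf c x (Y1 c x) u := by
    intro u
    simp only [tf, mul_sum, ← sum_add_distrib]
    exact sum_congr rfl fun i _ => sum_congr rfl fun j _ => sum_congr rfl fun k _ => by ring
  have h3 : tf c x (Y1 c x) (Y0 c x) = tf c x (Y0 c x) (Y1 c x) := by
    simp only [tf]
    refine sum_congr rfl fun i _ => ?_
    rw [sum_comm]
    exact sum_congr rfl fun j _ => sum_congr rfl fun k _ => by ring
  have hA' : tf c x (Y1 c x) (Y1 c x) = 0 := hA
  have hB' : 2 * tf c x (Y0 c x) (Y1 c x) = 0 := hB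
  have hC' : tf c x (Y0 c x) (Y0 c x) = 0 := hC
  have e : Fh c x z = tf c x (yh c x z) (yh c x z) := rfl
  rw [e, h1, tf_comb_3, h2, h2, h3]
  linear_combination hC' + z * hB' + z ^ 2 * hA'

/-- The form needed for the curves over `y`. -/
theorem hsurj_loc (hm : 1 ≤ m) (c : Ix m → ℤ_[p]) (L : Loc p (m + 1))
    (hA : ∀ x, L.A x = (Mx c (aff x)).det * Ah c (aff x))
    (hB : ∀ x, L.B x = (Mx c (aff x)).det * (2 * Bh c (aff x)))
    (hC : ∀ x, L.C x = (Mx c (aff x)).det * Ch c (aff x))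
    (hpsi : ∀ x z, L.psi x z = 2 * th c (aff x) z * psh c (aff x) z)
    (hd : ∀ x v, ∃ d, (∀ z, L.dF x v z = qh c (aff x) (Fin.cons 0 v) z + d * Fh c (aff x) z) ∧
      L.dA x v = qa c (aff x) (Fin.cons 0 v) + d * Ah c (aff x))
    {J : Type} (x1 : V p (m + 1)) (ζ : J → ℤ_[p]) (w : ℤ_[p])
    (hA1 : L.A x1 = 0) (hB1 : L.B x1 = 0) (hC1 : L.C x1 = 0)
    (hD : IsUnit (Mx c (aff x1)).det) (hN : (Nx c (yh c (aff x1) w)).det ≠ 0)
    (hw : L.psi x1 w ≠ 0) (η : Fin m → ℚ_[p]) :
    ∃ X, (lin L x1 ζ).phi (w : ℚ_[p]) X = 0 ∧ La c x1 w X = η := by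
  have hD1 : (Mx c (aff x1)).det ≠ 0 := hD.ne_zero
  have a1 : Ah c (aff x1) = 0 := by
    rw [hA] at hA1
    exact (mul_eq_zero.1 hA1).resolve_left hD1
  have b1 : 2 * Bh c (aff x1) = 0 := by
    rw [hB] at hB1
    exact (mul_eq_zero.1 hB1).resolve_left hD1
  have c1 : Ch c (aff x1) = 0 := by
    rw [hC] at hC1
    exact (mul_eq_zero.1 hC1).resolve_left hD1
  have hps : psh c (aff x1) w ≠ 0 := by
    intro h0
    apply hw
    rw [hpsi, h0, mul_zero]
  have hphi := phi_eq c L x1 ζ w (Fh_lin c (aff x1) w a1 b1 c1) (hd x1)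
  have hlin : ∀ X, (∑ i, ((lin L x1 ζ).qa i * (w : ℚ_[p]) ^ 2 + (lin L x1 ζ).qb i * (w : ℚ_[p]) +
      (lin L x1 ζ).qc i) * X i) = (lin L x1 ζ).phi (w : ℚ_[p]) X := fun X => rfl
  let f : (Fin (m + 1) → ℚ_[p]) →ₗ[ℚ_[p]] ℚ_[p] :=
    { toFun := fun X => (lin L x1 ζ).phi (w : ℚ_[p]) X
      map_add' := by
        intro X Y
        simp only [← hlin, Pi.add_apply, mul_add, sum_add_distrib]
      map_smul' := by
        intro a X
        simp only [← hlin, Pi.smul_apply, smul_eq_mul, RingHom.id_apply, mul_sum]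
        exact sum_congr rfl fun i _ => by ring }
  obtain ⟨X, h1, h2⟩ := hsurj hm c x1 w hD hN hps f hphi η
  exact ⟨X, h1, h2⟩

end Pool.Agent.Helper57.H2
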